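import Pool.Agent.helper47.SJ.SpecP
import Pool.Agent.helper28.HC.TA5

/-!
# sj:KMK, the data `GT` of the products
-/

namespace Pool.Agent.SJ

open scoped ComplexConjugate TensorProduct
open Pool.Agent.HC Pool.Agent.HC.SJ

noncomputable section

/-! ## Cyclotomic fields -/

theorem KMK_cyc (d : ℕ) (hd : 3 ≤ d) : ∃ (ζ : CyclotomicField d ℚ)
    (E : Un d ≃ (CyclotomicField d ℚ →+* ℂ)), (∀ r, E r ζ = zt d ^ (r.1 : ℕ)) ∧
      Submodule.span ℚ (Set.range fun a : Fin d => ζ ^ (a : ℕ)) = ⊤ := by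
  have : NeZero d := ⟨by omega⟩
  have : IsCyclotomicExtension {d} ℚ (CyclotomicField d ℚ) :=
    CyclotomicField.isCyclotomicExtension d ℚ
  have hζ : IsPrimitiveRoot (IsCyclotomicExtension.zeta d ℚ (CyclotomicField d ℚ)) d :=
    IsCyclotomicExtension.zeta_spec d ℚ (CyclotomicField d ℚ)
  have hz : IsPrimitiveRoot (zt d) d := Complex.isPrimitiveRoot_exp d (NeZero.ne d)
  have hirr : Irreducible (Polynomial.cyclotomic d ℚ) :=
    Polynomial.cyclotomic.irreducible_rat (NeZero.pos d)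
  set e1 := hζ.embeddingsEquivPrimitiveRoots ℂ hirr with he1
  have hmem : ∀ r : Un d, zt d ^ ((r.1 : Fin d) : ℕ) ∈ primitiveRoots d ℂ := fun r => by
    rw [mem_primitiveRoots (NeZero.pos d)]
    exact hz.pow_of_coprime _ r.2
  let f : Un d → primitiveRoots d ℂ := fun r => ⟨zt d ^ ((r.1 : Fin d) : ℕ), hmem r⟩
  have hf : Function.Bijective f := by
    refine ⟨fun r r' h => ?_, fun z => ?_⟩
    · have h1 : zt d ^ ((r.1 : Fin d) : ℕ) = zt d ^ ((r'.1 : Fin d) : ℕ) := congrArg Subtype.val h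
      exact Subtype.ext (Fin.ext (hz.pow_inj r.1.2 r'.1.2 h1))
    · have h1 : IsPrimitiveRoot (z : ℂ) d := (mem_primitiveRoots (NeZero.pos d)).1 z.2
      obtain ⟨i, hi, hc, he⟩ := (hz.isPrimitiveRoot_iff).1 h1
      exact ⟨⟨⟨i, hi⟩, hc⟩, Subtype.ext he⟩
  refine ⟨IsCyclotomicExtension.zeta d ℚ (CyclotomicField d ℚ),
    (Equiv.ofBijective f hf).trans (e1.symm.trans (RingHom.equivRatAlgHom (CyclotomicField d ℚ) ℂ).symm), fun r => ?_, ?_⟩
  · have h1 : e1 (e1.symm (f r)) = f r := e1.apply_symm_apply _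
    have h2 := congrArg Subtype.val h1
    rw [he1, IsPrimitiveRoot.embeddingsEquivPrimitiveRoots_apply_coe] at h2
    exact h2
  · rw [eq_top_iff, ← (hζ.powerBasis ℚ).basis.span_eq]
    refine Submodule.span_mono ?_
    rintro _ ⟨i, rfl⟩
    have hdim : (hζ.powerBasis ℚ).dim ≤ d := by
      have h1 : (hζ.powerBasis ℚ).dim = Module.finrank ℚ (CyclotomicField d ℚ) :=
        (hζ.powerBasis ℚ).finrank.symm
      rw [h1, IsCyclotomicExtension.finrank (CyclotomicField d ℚ) hirr]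
      exact Nat.totient_le d
    refine ⟨⟨i, i.2.trans_le hdim⟩, ?_⟩
    simp [PowerBasis.basis_eq_pow]

/-! ## Vectors of type `(1,0)` and `(0,1)` -/

section hvav
variable {W : Type} [NormedAddCommGroup W] [NormedSpace ℂ W]

theorem KMK_ev (z : W →ₗ[ℝ] ℂ) (c : ℂ) (v : W) : ev z (c ⊗ₜ[ℝ] v) = c * z v := by
  simp [ev]

theorem KMK_ev_hv (f : W →ₗ[ℂ] ℂ) (v : W) : ev (zh f) (hv v) = f v := by
  simp only [hv, map_smul, map_sub, KMK_ev, zh, LinearMap.coe_restrictScalars, smul_eq_mul]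
  linear_combination (-(1 / 2) * f v) * Complex.I_mul_I

theorem KMK_ev_av (f : W →ₗ[ℂ] ℂ) (v : W) : ev (zh f) (av v) = 0 := by
  simp only [av, map_smul, map_add, KMK_ev, zh, LinearMap.coe_restrictScalars, smul_eq_mul]
  linear_combination ((1 / 2) * f v) * Complex.I_mul_I

theorem KMK_ev_hv' (f : W →ₗ[ℂ] ℂ) (v : W) : ev (za f) (hv v) = 0 := by
  have h : ∀ w, za f w = conj (f w) := fun w => rfl
  simp only [hv, map_smul, map_sub, KMK_ev, h, smul_eq_mul, map_mul, Complex.conj_I]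
  linear_combination ((1 / 2) * conj (f v)) * Complex.I_mul_I

theorem KMK_ev_av' (f : W →ₗ[ℂ] ℂ) (v : W) : ev (za f) (av v) = conj (f v) := by
  have h : ∀ w, za f w = conj (f w) := fun w => rfl
  simp only [av, map_smul, map_add, KMK_ev, h, smul_eq_mul, map_mul, Complex.conj_I]
  linear_combination (-(1 / 2) * conj (f v)) * Complex.I_mul_I

theorem KMK_smul (c : ℂ) (v : W) : c • v = c.re • v + c.im • (Complex.I • v) := by
  conv_lhs => rw [← Complex.re_add_im c]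
  rw [add_smul, mul_smul]
  simp only [Complex.coe_smul]

theorem KMK_hv_add (v w : W) : hv (v + w) = hv v + hv w := by
  simp only [hv, smul_add, TensorProduct.tmul_add, smul_sub]
  abel

theorem KMK_av_add (v w : W) : av (v + w) = av v + av w := by
  simp only [av, smul_add, TensorProduct.tmul_add]
  abel

theorem KMK_tmul_real (a : ℝ) (c : ℂ) (v : W) :
    c ⊗ₜ[ℝ] (a • v) = (a : ℂ) • (c ⊗ₜ[ℝ] v) := by
  rw [TensorProduct.smul_tmul', ← TensorProduct.smul_tmul, smul_eq_mul, Complex.real_smul]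

theorem KMK_hv_real (a : ℝ) (v : W) : hv (a • v) = (a : ℂ) • hv v := by
  have h : Complex.I • (a • v) = a • (Complex.I • v) := smul_comm _ _ _
  simp only [hv, h, KMK_tmul_real]
  rw [← smul_sub, smul_comm]

theorem KMK_av_real (a : ℝ) (v : W) : av (a • v) = (a : ℂ) • av v := by
  have h : Complex.I • (a • v) = a • (Complex.I • v) := smul_comm _ _ _
  simp only [av, h, KMK_tmul_real]
  rw [← smul_add, smul_comm]

theorem KMK_hv_I (v : W) : hv (Complex.I • v) = Complex.I • hv v := by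
  have h : Complex.I • (Complex.I • v) = -v := by rw [smul_smul, Complex.I_mul_I, neg_one_smul]
  have h1 : Complex.I • ((1 : ℂ) ⊗ₜ[ℝ] v) = Complex.I ⊗ₜ[ℝ] v := by
    rw [TensorProduct.smul_tmul', smul_eq_mul, mul_one]
  have h2 : Complex.I • (Complex.I ⊗ₜ[ℝ] (Complex.I • v)) = -((1 : ℂ) ⊗ₜ[ℝ] (Complex.I • v)) := by
    rw [TensorProduct.smul_tmul', smul_eq_mul, Complex.I_mul_I, TensorProduct.neg_tmul]
  unfold hv
  rw [h, smul_comm Complex.I (1 / 2 : ℂ), smul_sub Complex.I, h1, h2, TensorProduct.tmul_neg]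
  congr 1
  abel

theorem KMK_av_I (v : W) : av (Complex.I • v) = (-Complex.I) • av v := by
  have h : Complex.I • (Complex.I • v) = -v := by rw [smul_smul, Complex.I_mul_I, neg_one_smul]
  have h1 : Complex.I • ((1 : ℂ) ⊗ₜ[ℝ] v) = Complex.I ⊗ₜ[ℝ] v := by
    rw [TensorProduct.smul_tmul', smul_eq_mul, mul_one]
  have h2 : Complex.I • (Complex.I ⊗ₜ[ℝ] (Complex.I • v)) = -((1 : ℂ) ⊗ₜ[ℝ] (Complex.I • v)) := by
    rw [TensorProduct.smul_tmul', smul_eq_mul, Complex.I_mul_I, TensorProduct.neg_tmul]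
  unfold av
  rw [h, neg_smul, smul_comm Complex.I (1 / 2 : ℂ), smul_add Complex.I, h1, h2,
    TensorProduct.tmul_neg, ← smul_neg]
  congr 1
  abel

theorem KMK_hv_smul (c : ℂ) (v : W) : hv (c • v) = c • hv v := by
  rw [KMK_smul c v, KMK_hv_add, KMK_hv_real, KMK_hv_real, KMK_hv_I, smul_smul, ← add_smul,
    Complex.re_add_im]

theorem KMK_av_smul (c : ℂ) (v : W) : av (c • v) = conj c • av v := by
  rw [KMK_smul c v, KMK_av_add, KMK_av_real, KMK_av_real, KMK_av_I, smul_smul, ← add_smul]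
  congr 1
  apply Complex.ext <;> simp

theorem KMK_hv_av (v : W) : (1 : ℂ) ⊗ₜ[ℝ] v = hv v + av v := by
  unfold hv av
  rw [← smul_add, sub_add_add_cancel, ← two_smul ℂ, smul_smul]
  norm_num

theorem KMK_hv_sum {ι : Type} (s : Finset ι) (f : ι → W) :
    hv (∑ i ∈ s, f i) = ∑ i ∈ s, hv (f i) := by
  classical
  induction s using Finset.induction_on with
  | empty => simp [hv]
  | insert a s ha ih => rw [Finset.sum_insert ha, Finset.sum_insert ha, KMK_hv_add, ih]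

theorem KMK_av_sum {ι : Type} (s : Finset ι) (f : ι → W) :
    av (∑ i ∈ s, f i) = ∑ i ∈ s, av (f i) := by
  classical
  induction s using Finset.induction_on with
  | empty => simp [av]
  | insert a s ha ih => rw [Finset.sum_insert ha, Finset.sum_insert ha, KMK_av_add, ih]

/-- `WC W` is spanned by the `1 ⊗ v`. -/
theorem KMK_top (S : Submodule ℂ (WC W)) (h : ∀ v : W, (1 : ℂ) ⊗ₜ[ℝ] v ∈ S) : S = ⊤ := by
  rw [eq_top_iff]
  rintro x -
  induction x using TensorProduct.induction_on with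
  | zero => exact S.zero_mem
  | tmul c v =>
    have h1 : c ⊗ₜ[ℝ] v = c • ((1 : ℂ) ⊗ₜ[ℝ] v) := by
      rw [TensorProduct.smul_tmul', smul_eq_mul, mul_one]
    rw [h1]
    exact S.smul_mem _ (h v)
  | add x y hx hy => exact S.add_mem hx hy

end hvav

/-! ## The torus with complex multiplication -/

section B
variable {B : Type} [NormedAddCommGroup B] [NormedSpace ℂ B] {r : ℕ} {KB : Fin r → Type}
  [∀ j, Field (KB j)] (Φ : ∀ j, Set (KB j →+* ℂ))
  (e : B ≃ₗ[ℂ] (∀ j, Φ j → ℂ))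

/-- coordinate -/
def KMK_co (j : Fin r) (φ : Φ j) : B →ₗ[ℂ] ℂ :=
  LinearMap.proj φ ∘ₗ LinearMap.proj j ∘ₗ e.toLinearMap

open Classical in
/-- coordinate vector -/
def KMK_ve (j : Fin r) (φ : Φ j) : B := e.symm (Pi.single j (Pi.single φ 1))

variable {Φ} in
theorem KMK_conj (hΦ : ∀ j, IsCMType (Φ j)) {j : Fin r} {φ : KB j →+* ℂ} (h : φ ∉ Φ j) :
    NumberField.ComplexEmbedding.conjugate φ ∈ Φ j := by
  by_contra h'
  exact h ((hΦ j φ).2 h')

variable {Φ} in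
theorem KMK_conj' (hΦ : ∀ j, IsCMType (Φ j)) {j : Fin r} {φ : KB j →+* ℂ} (h : φ ∈ Φ j) :
    NumberField.ComplexEmbedding.conjugate φ ∉ Φ j := (hΦ j φ).1 h

open Classical in
variable {Φ} in
/-- functionals -/
def KMK_z (hΦ : ∀ j, IsCMType (Φ j)) (x : Σ j, (KB j →+* ℂ)) : B →ₗ[ℝ] ℂ :=
  if h : x.2 ∈ Φ x.1 then zh (KMK_co Φ e x.1 ⟨x.2, h⟩)
  else za (KMK_co Φ e x.1 ⟨NumberField.ComplexEmbedding.conjugate x.2, KMK_conj hΦ h⟩)

open Classical in
variable {Φ} in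
/-- dual basis -/
def KMK_w (hΦ : ∀ j, IsCMType (Φ j)) (x : Σ j, (KB j →+* ℂ)) : WC B :=
  if h : x.2 ∈ Φ x.1 then hv (KMK_ve Φ e x.1 ⟨x.2, h⟩)
  else av (KMK_ve Φ e x.1 ⟨NumberField.ComplexEmbedding.conjugate x.2, KMK_conj hΦ h⟩)

open Classical in
theorem KMK_co_ve (j j' : Fin r) (φ : Φ j) (φ' : Φ j') :
    KMK_co Φ e j φ (KMK_ve Φ e j' φ') =
      if (⟨j, φ.1⟩ : Σ j, (KB j →+* ℂ)) = ⟨j', φ'.1⟩ then 1 else 0 := by
  simp only [KMK_co, KMK_ve, LinearMap.comp_apply, LinearEquiv.coe_coe,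
    LinearEquiv.apply_symm_apply, LinearMap.proj_apply]
  by_cases h : j = j'
  · subst h
    rw [Pi.single_eq_same]
    by_cases h2 : φ = φ'
    · subst h2
      simp
    · rw [Pi.single_eq_of_ne h2, if_neg]
      intro h3
      apply h2
      exact Subtype.ext (by simpa using h3)
  · rw [Pi.single_eq_of_ne h, if_neg]
    · rfl
    · intro h3
      exact h (congrArg Sigma.fst h3)

open Classical in
variable {Φ} in
theorem KMK_dual (hΦ : ∀ j, IsCMType (Φ j)) (x y : Σ j, (KB j →+* ℂ)) :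
    ev (KMK_z e hΦ x) (KMK_w e hΦ y) = if x = y then 1 else 0 := by
  obtain ⟨j, φ⟩ := x
  obtain ⟨j', φ'⟩ := y
  by_cases hx : φ ∈ Φ j
  · by_cases hy : φ' ∈ Φ j'
    · rw [KMK_z, KMK_w, dif_pos hx, dif_pos hy, KMK_ev_hv, KMK_co_ve]
    · rw [KMK_z, KMK_w, dif_pos hx, dif_neg hy, KMK_ev_av, if_neg]
      rintro h
      rw [Sigma.mk.injEq] at h
      obtain ⟨rfl, h⟩ := h
      exact hy (eq_of_heq h ▸ hx)
  · by_cases hy : φ' ∈ Φ j'
    · rw [KMK_z, KMK_w, dif_neg hx, dif_pos hy, KMK_ev_hv', if_neg]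
      rintro h
      rw [Sigma.mk.injEq] at h
      obtain ⟨rfl, h⟩ := h
      exact hx (eq_of_heq h ▸ hy)
    · rw [KMK_z, KMK_w, dif_neg hx, dif_neg hy, KMK_ev_av', KMK_co_ve]
      simp only
      by_cases h : (⟨j, φ⟩ : Σ j, (KB j →+* ℂ)) = ⟨j', φ'⟩
      · rw [if_pos h, if_pos]
        · simp
        · rw [Sigma.mk.injEq] at h
          obtain ⟨rfl, h⟩ := h
          rw [eq_of_heq h]
      · rw [if_neg h, if_neg]
        · simp
        · intro h2
          apply h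
          rw [Sigma.mk.injEq] at h2
          obtain ⟨rfl, h2⟩ := h2
          have h3 := eq_of_heq h2
          have h4 : φ = φ' := by
            have := congrArg NumberField.ComplexEmbedding.conjugate h3
            simpa using this
          rw [h4]

open Classical in
variable {Φ} in
theorem KMK_spanB (hΦ : ∀ j, IsCMType (Φ j)) [∀ j, Fintype (KB j →+* ℂ)] :
    Submodule.span ℂ (Set.range (KMK_w e hΦ)) = ⊤ := by
  refine KMK_top _ fun v => ?_
  have hv1 : v = ∑ j, ∑ φ : Φ j, e v j φ • KMK_ve Φ e j φ := by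
    apply e.injective
    simp only [map_sum, map_smul, KMK_ve, LinearEquiv.apply_symm_apply]
    funext j φ
    rw [Finset.sum_apply, Finset.sum_apply, Finset.sum_eq_single j, Finset.sum_apply,
      Finset.sum_apply, Finset.sum_eq_single φ]
    · simp
    · intro φ' _ h
      simp [Pi.single_eq_of_ne (Ne.symm h)]
    · simp
    · intro j' _ h
      rw [Finset.sum_apply, Finset.sum_apply]
      refine Finset.sum_eq_zero fun φ' _ => ?_
      simp [Pi.single_eq_of_ne (Ne.symm h)]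
    · simp
  have h1 : ∀ (j : Fin r) (φ : Φ j), hv (KMK_ve Φ e j φ) ∈
      Submodule.span ℂ (Set.range (KMK_w e hΦ)) := fun j φ => by
    have : KMK_w e hΦ ⟨j, φ.1⟩ = hv (KMK_ve Φ e j φ) := by
      rw [KMK_w, dif_pos φ.2]
    rw [← this]
    exact Submodule.subset_span ⟨_, rfl⟩
  have h2 : ∀ (j : Fin r) (φ : Φ j), av (KMK_ve Φ e j φ) ∈
      Submodule.span ℂ (Set.range (KMK_w e hΦ)) := fun j φ => by
    have : KMK_w e hΦ ⟨j, NumberField.ComplexEmbedding.conjugate φ.1⟩ = av (KMK_ve Φ e j φ) := by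
      rw [KMK_w, dif_neg (KMK_conj' hΦ φ.2)]
      congr 2
      exact Subtype.ext (by simp)
    rw [← this]
    exact Submodule.subset_span ⟨_, rfl⟩
  rw [KMK_hv_av, hv1, KMK_hv_sum, KMK_av_sum]
  refine Submodule.add_mem _ (Submodule.sum_mem _ fun j _ => ?_)
    (Submodule.sum_mem _ fun j _ => ?_)
  · rw [KMK_hv_sum]
    refine Submodule.sum_mem _ fun φ _ => ?_
    rw [KMK_hv_smul]
    exact Submodule.smul_mem _ _ (h1 j φ)
  · rw [KMK_av_sum]
    refine Submodule.sum_mem _ fun φ _ => ?_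
    rw [KMK_av_smul]
    exact Submodule.smul_mem _ _ (h2 j φ)

/-- multiplication -/
def KMK_mul (y : ∀ j, KB j) : B →ₗ[ℂ] B :=
  e.symm.toLinearMap ∘ₗ (LinearMap.pi fun j => LinearMap.pi fun φ : Φ j =>
    (φ.1 (y j)) • KMK_co Φ e j φ)

theorem KMK_mul_apply (y : ∀ j, KB j) (v : B) (j : Fin r) (φ : Φ j) :
    e (KMK_mul Φ e y v) j φ = φ.1 (y j) * e v j φ := by
  simp [KMK_mul, KMK_co]

variable {Φ} in
theorem KMK_z_mul (hΦ : ∀ j, IsCMType (Φ j)) (x : Σ j, (KB j →+* ℂ)) (y : ∀ j, KB j) (v : B) :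
    KMK_z e hΦ x (KMK_mul Φ e y v) = x.2 (y x.1) * KMK_z e hΦ x v := by
  have h1 : ∀ (j : Fin r) (φ : Φ j) (v : B), KMK_co Φ e j φ v = e v j φ := fun _ _ _ => rfl
  by_cases h : x.2 ∈ Φ x.1
  · rw [KMK_z, dif_pos h]
    simp only [zh, LinearMap.coe_restrictScalars, h1, KMK_mul_apply]
  · rw [KMK_z, dif_neg h]
    have h2 : ∀ (f : B →ₗ[ℂ] ℂ) w, za f w = conj (f w) := fun f w => rfl
    simp only [h2, h1, KMK_mul_apply, map_mul]
    simp

variable {Φ} in
theorem KMK_z_hol (hΦ : ∀ j, IsCMType (Φ j)) (x : Σ j, (KB j →+* ℂ)) :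
    (x.2 ∈ Φ x.1 → ∀ (c : ℂ) v, KMK_z e hΦ x (c • v) = c * KMK_z e hΦ x v) ∧
    (x.2 ∉ Φ x.1 → ∀ (c : ℂ) v, KMK_z e hΦ x (c • v) = conj c * KMK_z e hΦ x v) := by
  refine ⟨fun h c v => ?_, fun h c v => ?_⟩
  · rw [KMK_z, dif_pos h]
    simp [zh]
  · rw [KMK_z, dif_neg h]
    have h2 : ∀ (f : B →ₗ[ℂ] ℂ) w, za f w = conj (f w) := fun f w => rfl
    simp [h2]

/-- a family generating the product of the fields and preserving the lattice -/
theorem KMK_y [FiniteDimensional ℂ B] [∀ j, NumberField (KB j)] {LB : AddSubgroup B}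
    (hLB : IsLattice LB)
    (lat : ∀ w : B, (∃ n : ℕ, n ≠ 0 ∧ n • w ∈ LB) ↔
      ∃ x : ∀ j, KB j, ∀ (j : Fin r) (φ : Φ j), e w j φ = (φ : KB j →+* ℂ) (x j)) :
    ∃ (n : ℕ) (y : Fin n → ∀ j, KB j), (∀ a, ∀ v ∈ LB, KMK_mul Φ e (y a) v ∈ LB) ∧
      Submodule.span ℚ (Set.range y) = ⊤ := by
  obtain ⟨n, b, l, hb, hl, hs, -⟩ := TA5 B LB hLB
  have h1 : ∀ (y : ∀ j, KB j) (v : B), v ∈ LB → ∃ N : ℕ, N ≠ 0 ∧ N • KMK_mul Φ e y v ∈ LB := by
    intro y v hv
    obtain ⟨x, hx⟩ := (lat v).1 ⟨1, one_ne_zero, by rwa [one_smul]⟩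
    refine (lat _).2 ⟨fun j => y j * x j, fun j φ => ?_⟩
    rw [KMK_mul_apply, hx, map_mul]
  have h2 : ∀ y : ∀ j, KB j, ∃ N : ℕ, N ≠ 0 ∧ ∀ v ∈ LB, N • KMK_mul Φ e y v ∈ LB := by
    intro y
    choose N hN hN' using fun i => h1 y (b i) (hb i)
    refine ⟨∏ i, N i, Finset.prod_ne_zero_iff.2 fun i _ => hN i, fun v hv => ?_⟩
    have h3 : ∀ i, (∏ i, N i) • KMK_mul Φ e y (b i) ∈ LB := fun i => by
      rw [← Finset.prod_erase_mul _ _ (Finset.mem_univ i), mul_smul]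
      exact LB.nsmul_mem (hN' i) _
    choose z hz using fun i => hl i v hv
    have h4 : (∏ i, N i) • KMK_mul Φ e y v =
        ∑ i, z i • ((∏ i, N i) • KMK_mul Φ e y (b i)) := by
      have h5 : v = ∑ i, z i • b i := by
        conv_lhs => rw [hs v]
        refine Finset.sum_congr rfl fun i _ => ?_
        rw [hz i, Int.cast_smul_eq_zsmul]
      conv_lhs => rw [h5]
      rw [map_sum, Finset.smul_sum]
      refine Finset.sum_congr rfl fun i _ => ?_
      rw [map_zsmul, smul_comm]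
    rw [h4]
    exact LB.sum_mem fun i _ => LB.zsmul_mem (h3 i) _
  choose N hN hN' using h2
  let bas := Module.finBasis ℚ (∀ j, KB j)
  refine ⟨_, fun a => N (bas a) • bas a, fun a v hv => ?_, ?_⟩
  · have h3 : KMK_mul Φ e (N (bas a) • bas a) v = N (bas a) • KMK_mul Φ e (bas a) v := by
      apply e.injective
      funext j φ
      rw [KMK_mul_apply, map_nsmul]
      simp only [Pi.smul_apply, nsmul_eq_mul, map_mul, map_natCast, KMK_mul_apply]
      ring
    rw [h3]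
    exact hN' _ v hv
  · rw [eq_top_iff, ← bas.span_eq, Submodule.span_le]
    rintro _ ⟨a, rfl⟩
    have h3 : bas a = (N (bas a) : ℚ)⁻¹ • (N (bas a) • bas a) := by
      rw [← Nat.cast_smul_eq_nsmul ℚ, smul_smul, inv_mul_cancel₀ (Nat.cast_ne_zero.2 (hN _)),
        one_smul]
    rw [SetLike.mem_coe, h3]
    exact Submodule.smul_mem _ _ (Submodule.subset_span ⟨a, rfl⟩)

end B

/-! ## The construction -/

section G
variable {k r : ℕ} {d : Fin k → ℕ} {K : Fin k ⊕ Fin r → Type} [∀ j, Field (K j)]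
  [∀ j, NumberField (K j)] (ζ : ∀ i, K (.inl i)) (E : ∀ i, Un (d i) ≃ (K (.inl i) →+* ℂ))
  {B : Type} [NormedAddCommGroup B] [NormedSpace ℂ B] [FiniteDimensional ℂ B]
  {Φ : ∀ j : Fin r, Set (K (.inr j) →+* ℂ)} (hΦ : ∀ j, IsCMType (Φ j))
  (e : B ≃ₗ[ℂ] (∀ j, Φ j → ℂ)) {nB : ℕ} (y : Fin nB → ∀ j : Fin r, K (.inr j))
  (X : ∀ i, KT (d i))

/-- the endomorphisms of the Jacobian factors -/
def KMK_T1 (α : (Σ i : Fin k, Fin (d i)) → ℤ) : (∀ i, (X i).W) →ₗ[ℂ] (∀ i, (X i).W) :=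
  LinearMap.pi fun i => (∑ a : Fin (d i), α ⟨i, a⟩ • (X i).op ^ (a : ℕ)) ∘ₗ LinearMap.proj i

variable (Φ) in
/-- the endomorphisms of the CM factor -/
def KMK_T2 (α : Fin nB → ℤ) : B →ₗ[ℂ] B := ∑ a, α a • KMK_mul Φ e (y a)

open Classical in
/-- the data -/
def KMK_G : GT (Fin k ⊕ Fin r) K (VV X B) where
  I := (Σ i, (X i).I) ⊕ (Σ j : Fin r, (K (.inr j) →+* ℂ))
  bl := Sum.elim (fun u => ⟨.inl u.1, E u.1 ((X u.1).bl u.2)⟩) (fun x => ⟨.inr x.1, x.2⟩)
  hol := Sum.elim (fun u => (X u.1).hol u.2) (fun x => x.2 ∈ Φ x.1)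
  z := Sum.elim (fun u => (X u.1).z u.2 ∘ₗ
      (LinearMap.proj (R := ℝ) (φ := fun i => (X i).W) u.1 ∘ₗ LinearMap.fst ℝ (∀ i, (X i).W) B))
    (fun x => KMK_z e hΦ x ∘ₗ LinearMap.snd ℝ (∀ i, (X i).W) B)
  w := Sum.elim (fun u => bc (re' (iX X B u.1)) ((X u.1).w u.2))
    (fun x => bc (re' (iB X B)) (KMK_w e hΦ x))
  M := (Σ i : Fin k, Fin (d i)) ⊕ Fin nB
  om := Sum.elim (fun a => Pi.single (.inl a.1) (ζ a.1 ^ (a.2 : ℕ)))
    (fun a j => match j with
      | .inl _ => 0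
      | .inr j => y a j)
  T := fun α => (KMK_T1 X (fun a => α (.inl a))).prodMap (KMK_T2 Φ e y (fun a => α (.inr a)))

theorem KMK_card (P : (KMK_G ζ E hΦ e y X).I → Prop) : Nat.card {x // P x} =
    (∑ i, Nat.card {u : (X i).I // P (.inl ⟨i, u⟩)}) + Nat.card {x // P (.inr x)} := by
  classical
  change Nat.card {x : (Σ i, (X i).I) ⊕ (Σ j : Fin r, (K (.inr j) →+* ℂ)) // P x} = _
  simp only [Nat.card_eq_fintype_card, Fintype.card_subtype, Finset.card_filter]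
  rw [Fintype.sum_sum_type, Fintype.sum_sigma]

theorem KMK_ev_bc {W V : Type} [AddCommGroup W] [Module ℝ W] [AddCommGroup V] [Module ℝ V]
    (z : V →ₗ[ℝ] ℂ) (p : W →ₗ[ℝ] V) (t : WC W) : ev z (bc p t) = ev (z ∘ₗ p) t := by
  induction t using TensorProduct.induction_on with
  | zero => simp
  | tmul c v => simp [ev, bc]
  | add x y hx hy => rw [map_add, map_add, map_add, hx, hy]

theorem KMK_ev_zero {W : Type} [AddCommGroup W] [Module ℝ W] (t : WC W) :
    ev (0 : W →ₗ[ℝ] ℂ) t = 0 := by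
  induction t using TensorProduct.induction_on with
  | zero => simp
  | tmul c v => simp [ev]
  | add x y hx hy => rw [map_add, hx, hy, add_zero]

theorem KMK_bl_inl {i i' : Fin k} {φ : K (.inl i) →+* ℂ} {φ' : K (.inl i') →+* ℂ}
    (h : (⟨.inl i, φ⟩ : Σ j, (K j →+* ℂ)) = ⟨.inl i', φ'⟩) : i = i' :=
  Sum.inl.inj (congrArg Sigma.fst h)

theorem KMK_OK_dual {n : Fin k → ℕ} (hX : ∀ i, (X i).OK (n i))
    (i j : (KMK_G ζ E hΦ e y X).I) :
    ev ((KMK_G ζ E hΦ e y X).z i) ((KMK_G ζ E hΦ e y X).w j) = if i = j then 1 else 0 := by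
  classical
  rcases i with ⟨i, u⟩ | x <;> rcases j with ⟨j, v⟩ | x'
  · change ev ((X i).z u ∘ₗ (LinearMap.proj (R := ℝ) (φ := fun i => (X i).W) i ∘ₗ
      LinearMap.fst ℝ (∀ i, (X i).W) B)) (bc (re' (iX X B j)) ((X j).w v)) = _
    rw [KMK_ev_bc]
    by_cases h : i = j
    · subst h
      have h1 : ((X i).z u ∘ₗ (LinearMap.proj (R := ℝ) (φ := fun i => (X i).W) i ∘ₗ
          LinearMap.fst ℝ (∀ i, (X i).W) B)) ∘ₗ re' (iX X B i) = (X i).z u := by
        ext w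
        simp [iX]
      rw [h1, (hX i).dual]
      by_cases h2 : u = v
      · subst h2
        simp
      · rw [if_neg h2, if_neg]
        intro h3
        apply h2
        simpa using Sum.inl.inj h3
    · have h1 : ((X i).z u ∘ₗ (LinearMap.proj (R := ℝ) (φ := fun i => (X i).W) i ∘ₗ
          LinearMap.fst ℝ (∀ i, (X i).W) B)) ∘ₗ re' (iX X B j) = 0 := by
        ext w
        simp [iX, Pi.single_eq_of_ne h]
      rw [h1, KMK_ev_zero, if_neg]
      intro h3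
      exact h (congrArg Sigma.fst (Sum.inl.inj h3))
  · change ev ((X i).z u ∘ₗ (LinearMap.proj (R := ℝ) (φ := fun i => (X i).W) i ∘ₗ
      LinearMap.fst ℝ (∀ i, (X i).W) B)) (bc (re' (iB X B)) (KMK_w e hΦ x')) = _
    have h1 : ((X i).z u ∘ₗ (LinearMap.proj (R := ℝ) (φ := fun i => (X i).W) i ∘ₗ
        LinearMap.fst ℝ (∀ i, (X i).W) B)) ∘ₗ re' (iB X B) = 0 := by
      ext w
      simp [iB]
    rw [KMK_ev_bc, h1, KMK_ev_zero, if_neg]
    exact Sum.inl_ne_inr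
  · change ev (KMK_z e hΦ x ∘ₗ LinearMap.snd ℝ (∀ i, (X i).W) B)
      (bc (re' (iX X B j)) ((X j).w v)) = _
    have h1 : (KMK_z e hΦ x ∘ₗ LinearMap.snd ℝ (∀ i, (X i).W) B) ∘ₗ re' (iX X B j) = 0 := by
      ext w
      simp [iX]
    rw [KMK_ev_bc, h1, KMK_ev_zero, if_neg]
    exact Sum.inr_ne_inl
  · change ev (KMK_z e hΦ x ∘ₗ LinearMap.snd ℝ (∀ i, (X i).W) B)
      (bc (re' (iB X B)) (KMK_w e hΦ x')) = _
    have h1 : (KMK_z e hΦ x ∘ₗ LinearMap.snd ℝ (∀ i, (X i).W) B) ∘ₗ re' (iB X B) =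
        KMK_z e hΦ x := by
      ext w
      simp [iB]
    rw [KMK_ev_bc, h1, KMK_dual]
    by_cases h : x = x'
    · subst h
      simp
    · rw [if_neg h, if_neg]
      intro h3
      exact h (Sum.inr.inj h3)

theorem KMK_OK_span {n : Fin k → ℕ} (hX : ∀ i, (X i).OK (n i)) :
    Submodule.span ℂ (Set.range (KMK_G ζ E hΦ e y X).w) = ⊤ := by
  classical
  set S := Submodule.span ℂ (Set.range (KMK_G ζ E hΦ e y X).w) with hS
  have h1 : ∀ i (t : WC (X i).W), bc (re' (iX X B i)) t ∈ S := by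
    intro i t
    have ht : t ∈ Submodule.span ℂ (Set.range (X i).w) := by rw [(hX i).span]; trivial
    induction ht using Submodule.span_induction with
    | mem x hx =>
      obtain ⟨u, rfl⟩ := hx
      exact Submodule.subset_span ⟨.inl ⟨i, u⟩, rfl⟩
    | zero => rw [map_zero]; exact S.zero_mem
    | add x y _ _ hx hy => rw [map_add]; exact S.add_mem hx hy
    | smul c x _ hx => rw [map_smul]; exact S.smul_mem _ hx
  have h2 : ∀ t : WC B, bc (re' (iB X B)) t ∈ S := by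
    intro t
    have ht : t ∈ Submodule.span ℂ (Set.range (KMK_w e hΦ)) := by rw [KMK_spanB]; trivial
    induction ht using Submodule.span_induction with
    | mem x hx =>
      obtain ⟨u, rfl⟩ := hx
      exact Submodule.subset_span ⟨.inr u, rfl⟩
    | zero => rw [map_zero]; exact S.zero_mem
    | add x y _ _ hx hy => rw [map_add]; exact S.add_mem hx hy
    | smul c x _ hx => rw [map_smul]; exact S.smul_mem _ hx
  refine KMK_top _ fun v => ?_
  have h3 : v = ∑ i, iX X B i (v.1 i) + iB X B v.2 := by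
    refine Prod.ext ?_ ?_
    · funext j
      rw [Prod.fst_add, Prod.fst_sum, Pi.add_apply, Finset.sum_apply, Finset.sum_eq_single j]
      · simp [iX, iB]
      · intro i _ hij
        simp [iX, Pi.single_eq_of_ne (Ne.symm hij)]
      · simp
    · rw [Prod.snd_add, Prod.snd_sum, Finset.sum_eq_zero]
      · simp [iB]
      · intro i _
        simp [iX]
  have h4 : (1 : ℂ) ⊗ₜ[ℝ] v = ∑ i, bc (re' (iX X B i)) ((1 : ℂ) ⊗ₜ[ℝ] (v.1 i)) +
      bc (re' (iB X B)) ((1 : ℂ) ⊗ₜ[ℝ] v.2) := by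
    conv_lhs => rw [h3]
    rw [TensorProduct.tmul_add, TensorProduct.tmul_sum]
    simp [bc]
  rw [h4]
  exact S.add_mem (S.sum_mem fun i _ => h1 i _) (h2 _)

theorem KMK_om_span (hζ : ∀ i, Submodule.span ℚ (Set.range fun a : Fin (d i) => ζ i ^ (a : ℕ)) = ⊤)
    (hy : Submodule.span ℚ (Set.range y) = ⊤) :
    Submodule.span ℚ (Set.range (KMK_G ζ E hΦ e y X).om) = ⊤ := by
  classical
  set S := Submodule.span ℚ (Set.range (KMK_G ζ E hΦ e y X).om) with hS
  have h1 : ∀ (i : Fin k) (t : K (.inl i)), (Pi.single (.inl i) t : ∀ j, K j) ∈ S := by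
    intro i t
    have ht : t ∈ Submodule.span ℚ (Set.range fun a : Fin (d i) => ζ i ^ (a : ℕ)) := by
      rw [hζ]; trivial
    induction ht using Submodule.span_induction with
    | mem x hx =>
      obtain ⟨a, rfl⟩ := hx
      exact Submodule.subset_span ⟨.inl ⟨i, a⟩, rfl⟩
    | zero => rw [Pi.single_zero]; exact S.zero_mem
    | add x y _ _ hx hy => rw [Pi.single_add]; exact S.add_mem hx hy
    | smul c x _ hx =>
      have h : (Pi.single (.inl i) (c • x) : ∀ j, K j) = c • Pi.single (.inl i) x :=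
        Pi.single_smul _ _ _
      rw [h]
      exact S.smul_mem _ hx
  let L : (∀ j : Fin r, K (.inr j)) →ₗ[ℚ] (∀ j, K j) :=
    { toFun := fun t j => match j with
        | .inl _ => 0
        | .inr j => t j
      map_add' := fun t t' => by
        funext j
        rcases j with j | j <;> simp
      map_smul' := fun c t => by
        funext j
        rcases j with j | j <;> simp }
  have h2 : ∀ t : ∀ j : Fin r, K (.inr j), L t ∈ S := by
    intro t
    have ht : t ∈ Submodule.span ℚ (Set.range y) := by rw [hy]; trivial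
    induction ht using Submodule.span_induction with
    | mem x hx =>
      obtain ⟨a, rfl⟩ := hx
      exact Submodule.subset_span ⟨.inr a, rfl⟩
    | zero => rw [map_zero]; exact S.zero_mem
    | add x y _ _ hx hy => rw [map_add]; exact S.add_mem hx hy
    | smul c x _ hx => rw [map_smul]; exact S.smul_mem _ hx
  rw [eq_top_iff]
  rintro x -
  have h3 : x = ∑ i : Fin k, (Pi.single (.inl i) (x (.inl i)) : ∀ j, K j) +
      L (fun j => x (.inr j)) := by
    funext j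
    rw [Pi.add_apply, Finset.sum_apply]
    rcases j with j | j
    · rw [Finset.sum_eq_single j]
      · simp [L]
      · intro i _ hij
        rw [Pi.single_eq_of_ne]
        intro h
        exact hij (Sum.inl.inj h).symm
      · simp
    · rw [Finset.sum_eq_zero]
      · simp [L]
      · intro i _
        rw [Pi.single_eq_of_ne]
        simp
  rw [h3]
  exact S.add_mem (S.sum_mem fun i _ => h1 i _) (h2 _)

theorem KMK_T1_apply (α : (Σ i : Fin k, Fin (d i)) → ℤ) (v : ∀ i, (X i).W) (i : Fin k) :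
    KMK_T1 X α v i = ∑ a : Fin (d i), α ⟨i, a⟩ • ((X i).op ^ (a : ℕ)) (v i) := by
  simp [KMK_T1, LinearMap.sum_apply]

theorem KMK_T2_apply (α : Fin nB → ℤ) (v : B) :
    KMK_T2 Φ e y α v = ∑ a, α a • KMK_mul Φ e (y a) v := by
  simp [KMK_T2, LinearMap.sum_apply]

theorem KMK_T_lat {n : Fin k → ℕ} (hX : ∀ i, (X i).OK (n i)) {LB : AddSubgroup B}
    (hy : ∀ a, ∀ v ∈ LB, KMK_mul Φ e (y a) v ∈ LB)
    (α : (KMK_G ζ E hΦ e y X).M → ℤ) (v : VV X B) (hv : v ∈ LV X LB) :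
    (KMK_G ζ E hΦ e y X).T α v ∈ LV X LB := by
  obtain ⟨h1, h2⟩ := hv
  refine ⟨?_, ?_⟩
  · rintro i -
    change KMK_T1 X (fun a => α (.inl a)) v.1 i ∈ (X i).Lam
    rw [KMK_T1_apply]
    refine (X i).Lam.sum_mem fun a _ => (X i).Lam.zsmul_mem ?_ _
    have h3 : ∀ (m : ℕ) (w : (X i).W), w ∈ (X i).Lam → ((X i).op ^ m) w ∈ (X i).Lam := by
      intro m
      induction m with
      | zero => intro w hw; simpa using hw
      | succ m ih =>
        intro w hw
        rw [pow_succ, Module.End.mul_apply]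
        exact ih _ ((hX i).op_lat w hw)
    exact h3 _ _ (h1 i trivial)
  · change KMK_T2 Φ e y (fun a => α (.inr a)) v.2 ∈ LB
    rw [KMK_T2_apply]
    exact LB.sum_mem fun a _ => LB.zsmul_mem (hy a _ h2) _

theorem KMK_T_z {n : Fin k → ℕ} (hX : ∀ i, (X i).OK (n i))
    (hE : ∀ i r, E i r (ζ i) = zt (d i) ^ (r.1 : ℕ))
    (α : (KMK_G ζ E hΦ e y X).M → ℤ) (i : (KMK_G ζ E hΦ e y X).I) (v : VV X B) :
    (KMK_G ζ E hΦ e y X).z i ((KMK_G ζ E hΦ e y X).T α v) =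
      eig (KMK_G ζ E hΦ e y X).om α ((KMK_G ζ E hΦ e y X).bl i) *
        (KMK_G ζ E hΦ e y X).z i v := by
  classical
  rcases i with ⟨i, u⟩ | x
  · change (X i).z u (KMK_T1 X (fun a => α (.inl a)) v.1 i) = _ * (X i).z u (v.1 i)
    rw [KMK_T1_apply, map_sum]
    have h1 : ∀ (m : ℕ) (w : (X i).W), (X i).z u (((X i).op ^ m) w) =
        (zt (d i) ^ (((X i).bl u).1 : ℕ)) ^ m * (X i).z u w := by
      intro m
      induction m with
      | zero => intro w; simp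
      | succ m ih =>
        intro w
        rw [pow_succ, Module.End.mul_apply, ih, (hX i).op_z, pow_succ]
        ring
    have h2 : eig (KMK_G ζ E hΦ e y X).om α ((KMK_G ζ E hΦ e y X).bl (.inl ⟨i, u⟩)) =
        ∑ a : Fin (d i), (α (.inl ⟨i, a⟩) : ℂ) * (zt (d i) ^ (((X i).bl u).1 : ℕ)) ^ (a : ℕ) := by
      unfold eig
      change ∑ μ : (Σ i : Fin k, Fin (d i)) ⊕ Fin nB, (α μ : ℂ) * (E i ((X i).bl u))
        ((KMK_G ζ E hΦ e y X).om μ (.inl i)) = _
      rw [Fintype.sum_sum_type]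
      have h3 : ∑ a : Fin nB, (α (.inr a) : ℂ) * (E i ((X i).bl u))
          ((KMK_G ζ E hΦ e y X).om (.inr a) (.inl i)) = 0 := by
        refine Finset.sum_eq_zero fun a _ => ?_
        have : (KMK_G ζ E hΦ e y X).om (.inr a) (.inl i) = 0 := rfl
        rw [this, map_zero, mul_zero]
      rw [h3, add_zero, Fintype.sum_sigma, Finset.sum_eq_single i]
      · refine Finset.sum_congr rfl fun a _ => ?_
        have : (KMK_G ζ E hΦ e y X).om (.inl ⟨i, a⟩) (.inl i) = ζ i ^ (a : ℕ) :=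
          Pi.single_eq_same _ _
        rw [this, map_pow, hE]
      · intro j _ hj
        refine Finset.sum_eq_zero fun a _ => ?_
        have : (KMK_G ζ E hΦ e y X).om (.inl ⟨j, a⟩) (.inl i) = 0 :=
          Pi.single_eq_of_ne (fun h => hj (Sum.inl.inj h).symm) _
        rw [this, map_zero, mul_zero]
      · simp
    rw [h2, Finset.sum_mul]
    refine Finset.sum_congr rfl fun a _ => ?_
    rw [map_zsmul, h1, zsmul_eq_mul]
    ring
  · change KMK_z e hΦ x (KMK_T2 Φ e y (fun a => α (.inr a)) v.2) = _ * KMK_z e hΦ x v.2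
    rw [KMK_T2_apply, map_sum]
    have h2 : eig (KMK_G ζ E hΦ e y X).om α ((KMK_G ζ E hΦ e y X).bl (.inr x)) =
        ∑ a : Fin nB, (α (.inr a) : ℂ) * x.2 (y a x.1) := by
      unfold eig
      change ∑ μ : (Σ i : Fin k, Fin (d i)) ⊕ Fin nB, (α μ : ℂ) * x.2
        ((KMK_G ζ E hΦ e y X).om μ (.inr x.1)) = _
      rw [Fintype.sum_sum_type]
      have h3 : ∑ a : (Σ i : Fin k, Fin (d i)), (α (.inl a) : ℂ) * x.2
          ((KMK_G ζ E hΦ e y X).om (.inl a) (.inr x.1)) = 0 := by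
        refine Finset.sum_eq_zero fun a _ => ?_
        have : (KMK_G ζ E hΦ e y X).om (.inl a) (.inr x.1) = 0 := by
          change (Pi.single (.inl a.1) (ζ a.1 ^ (a.2 : ℕ)) : ∀ j, K j) (.inr x.1) = 0
          exact Pi.single_eq_of_ne Sum.inr_ne_inl _
        rw [this, map_zero, mul_zero]
      rw [h3, zero_add]
      rfl
    rw [h2, Finset.sum_mul]
    refine Finset.sum_congr rfl fun a _ => ?_
    rw [map_zsmul, KMK_z_mul, zsmul_eq_mul]
    ring

theorem KMK_blcard (β : Σ j, (K j →+* ℂ)) : Nat.card {x // (KMK_G ζ E hΦ e y X).bl x = β} =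
    match β with
    | ⟨.inl i, φ⟩ => Nat.card {u : (X i).I // (X i).bl u = (E i).symm φ}
    | ⟨.inr _, _⟩ => 1 := by
  classical
  rw [KMK_card]
  obtain ⟨j | j, φ⟩ := β
  · have h1 : Nat.card {x : (Σ j : Fin r, (K (.inr j) →+* ℂ)) //
        (KMK_G ζ E hΦ e y X).bl (.inr x) = ⟨.inl j, φ⟩} = 0 := by
      rw [Nat.card_eq_zero]
      left
      refine ⟨fun x => ?_⟩
      have := congrArg Sigma.fst x.2
      exact Sum.inr_ne_inl this
    rw [h1, add_zero, Finset.sum_eq_single j]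
    · refine Nat.card_congr (Equiv.subtypeEquivRight fun u => ?_)
      change ((⟨.inl j, E j ((X j).bl u)⟩ : Σ j, (K j →+* ℂ)) = ⟨.inl j, φ⟩) ↔ _
      constructor
      · intro h
        rw [Sigma.mk.injEq] at h
        rw [Equiv.eq_symm_apply]
        exact eq_of_heq h.2
      · intro h
        rw [h, Equiv.apply_symm_apply]
    · intro i _ hi
      rw [Nat.card_eq_zero]
      left
      refine ⟨fun x => ?_⟩
      exact hi (Sum.inl.inj (congrArg Sigma.fst x.2))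
    · simp
  · have h1 : ∑ i : Fin k, Nat.card {u : (X i).I //
        (KMK_G ζ E hΦ e y X).bl (.inl ⟨i, u⟩) = ⟨.inr j, φ⟩} = 0 := by
      refine Finset.sum_eq_zero fun i _ => ?_
      rw [Nat.card_eq_zero]
      left
      refine ⟨fun x => ?_⟩
      have := congrArg Sigma.fst x.2
      exact Sum.inl_ne_inr this
    rw [h1, zero_add, Nat.card_eq_one_iff_unique]
    refine ⟨⟨fun x x' => ?_⟩, ⟨⟨⟨j, φ⟩, rfl⟩⟩⟩
    have h2 := x.2.trans x'.2.symm
    obtain ⟨⟨a, b⟩, hx⟩ := x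
    obtain ⟨⟨a', b'⟩, hx'⟩ := x'
    change ((⟨.inr a, b⟩ : Σ j, (K j →+* ℂ)) = ⟨.inr a', b'⟩) at h2
    apply Subtype.ext
    simp only
    rw [Sigma.mk.injEq] at h2
    have h3 : a = a' := Sum.inr.inj h2.1
    subst h3
    rw [eq_of_heq h2.2]

theorem KMK_OK (hKPI : KPI_stmt) {n : Fin k → ℕ} (hn : ∀ i, 0 < n i)
    (hX : ∀ i, (X i).OK (n i)) (hE : ∀ i r, E i r (ζ i) = zt (d i) ^ (r.1 : ℕ))
    (hζ : ∀ i, Submodule.span ℚ (Set.range fun a : Fin (d i) => ζ i ^ (a : ℕ)) = ⊤)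
    {LB : AddSubgroup B} (hLB : IsLattice LB)
    (hy : ∀ a, ∀ v ∈ LB, KMK_mul Φ e (y a) v ∈ LB)
    (hys : Submodule.span ℚ (Set.range y) = ⊤) :
    (KMK_G ζ E hΦ e y X).OK (LV X LB) where
  lat := hKPI.1 _ _ _ _ (hKPI.2 k (fun i => (X i).W) (fun i => (X i).Lam) fun i => (hX i).lat) hLB
  pos := by
    rintro ⟨j | j, φ⟩
    · have h1 := (hX j).card ((E j).symm φ)
      have h2 : (Finset.univ.filter (fun i => (X j).bl i = (E j).symm φ)).Nonempty := by
        rw [← Finset.card_pos, h1]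
        exact hn j
      obtain ⟨u, hu⟩ := h2
      have h3 := (Finset.mem_filter.1 hu).2
      refine ⟨.inl ⟨j, u⟩, ?_⟩
      change (⟨.inl j, E j ((X j).bl u)⟩ : Σ j, (K j →+* ℂ)) = ⟨.inl j, φ⟩
      rw [h3, Equiv.apply_symm_apply]
    · exact ⟨.inr ⟨j, φ⟩, rfl⟩
  card := by
    rintro (j | j) φ φ'
    · rw [KMK_blcard, KMK_blcard]
      simp only
      rw [Nat.card_eq_fintype_card, Nat.card_eq_fintype_card, Fintype.card_subtype,
        Fintype.card_subtype, (hX j).card, (hX j).card]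
    · rw [KMK_blcard, KMK_blcard]
  dual := fun i j => by
    classical
    have := KMK_OK_dual ζ E hΦ e y X hX i j
    convert this
  span := KMK_OK_span ζ E hΦ e y X hX
  hz := by
    rintro (⟨i, u⟩ | x) h c v
    · exact (hX i).hz u h c (v.1 i)
    · exact (KMK_z_hol e hΦ x).1 h c v.2
  az := by
    rintro (⟨i, u⟩ | x) h c v
    · exact (hX i).az u h c (v.1 i)
    · exact (KMK_z_hol e hΦ x).2 h c v.2
  om_span := KMK_om_span ζ E hΦ e y X hζ hys
  T_lat := fun α v hv => KMK_T_lat ζ E hΦ e y X hX hy α v hv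
  T_z := fun α i v => KMK_T_z ζ E hΦ e y X hX hE α i v

open Classical in
/-- the blocks of `S` at the factor `i` -/
def KMK_S (S : Finset (Σ j, (K j →+* ℂ))) (i : Fin k) : Finset (Un (d i)) :=
  Finset.univ.filter fun r => (⟨.inl i, E i r⟩ : Σ j, (K j →+* ℂ)) ∈ S

open Classical in
/-- the monomial at the CM factor -/
def KMK_mB (S : Finset (Σ j, (K j →+* ℂ))) : Multiset (WC B) :=
  (Finset.univ.filter fun x : Σ j : Fin r, (K (.inr j) →+* ℂ) =>
    (⟨.inr x.1, x.2⟩ : Σ j, (K j →+* ℂ)) ∈ S).val.map (KMK_w e hΦ)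

theorem KMK_ms {A C : Type} (s : Finset A) (f : A → C) :
    s.val.map f = ∑ x ∈ s, ({f x} : Multiset C) := by
  classical
  induction s using Finset.induction_on with
  | empty => simp
  | insert a s ha ih =>
    rw [Finset.sum_insert ha, Finset.insert_val_of_notMem ha, Multiset.map_cons, ih,
      Multiset.singleton_add]

open Classical in
theorem KMK_mono (S : Finset (Σ j, (K j →+* ℂ))) :
    (KMK_G ζ E hΦ e y X).mono S = MV X B (KMK_S E S) (KMK_mB hΦ e S) := by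
  unfold GT.mono MV KMK_mB
  rw [KMK_ms, Finset.sum_filter]
  refine (Fintype.sum_sum_type (α₁ := Σ i, (X i).I)
    (α₂ := Σ j : Fin r, (K (.inr j) →+* ℂ)) _).trans ?_
  rw [Fintype.sum_sigma]
  congr 1
  · refine Finset.sum_congr rfl fun i _ => ?_
    have h1 : ∑ r ∈ KMK_S E S i, (X i).blk r =
        (Finset.univ.filter fun u : (X i).I =>
          (⟨.inl i, E i ((X i).bl u)⟩ : Σ j, (K j →+* ℂ)) ∈ S).val.map (X i).w := by
      rw [KMK_ms, Finset.sum_filter]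
      unfold KT.blk
      simp only [KMK_ms, Finset.sum_filter]
      rw [Finset.sum_comm]
      refine Finset.sum_congr rfl fun u _ => ?_
      rw [Finset.sum_ite_eq]
      simp [KMK_S]
    rw [h1, Multiset.map_map, KMK_ms, Finset.sum_filter]
    refine Finset.sum_congr rfl fun u _ => ?_
    by_cases h : (⟨.inl i, E i ((X i).bl u)⟩ : Σ j, (K j →+* ℂ)) ∈ S
    · exact (if_pos h).trans (if_pos h).symm
    · exact (if_neg h).trans (if_neg h).symm
  · rw [Multiset.map_map, KMK_ms, Finset.sum_filter]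
    refine Finset.sum_congr rfl fun x _ => ?_
    by_cases h : (⟨.inr x.1, x.2⟩ : Σ j, (K j →+* ℂ)) ∈ S
    · exact (if_pos h).trans (if_pos h).symm
    · exact (if_neg h).trans (if_neg h).symm

/-- number of elements of a block with a property -/
theorem KMK_cnt {n : Fin k → ℕ} (hX : ∀ i, (X i).OK (n i)) (S : Finset (Σ j, (K j →+* ℂ)))
    (i : Fin k) :
    Nat.card {u : (X i).I // (⟨.inl i, E i ((X i).bl u)⟩ : Σ j, (K j →+* ℂ)) ∈ S ∧ (X i).hol u} =
      ∑ r ∈ KMK_S E S i, (X i).hn r ∧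
    Nat.card {u : (X i).I // (⟨.inl i, E i ((X i).bl u)⟩ : Σ j, (K j →+* ℂ)) ∈ S ∧ (X i).hol u} +
    Nat.card {u : (X i).I // (⟨.inl i, E i ((X i).bl u)⟩ : Σ j, (K j →+* ℂ)) ∈ S ∧ ¬ (X i).hol u} =
      (KMK_S E S i).card * n i := by
  classical
  have h0 : ∀ P : (X i).I → Prop, Nat.card {u : (X i).I //
      (⟨.inl i, E i ((X i).bl u)⟩ : Σ j, (K j →+* ℂ)) ∈ S ∧ P u} =
      ∑ r ∈ KMK_S E S i, Nat.card {u : (X i).I // (X i).bl u = r ∧ P u} := by
    intro P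
    simp only [Nat.card_eq_fintype_card, Fintype.card_subtype, Finset.card_filter]
    rw [Finset.sum_comm]
    refine Finset.sum_congr rfl fun u _ => ?_
    by_cases hP : P u
    · simp only [hP, and_true]
      rw [Finset.sum_ite_eq]
      simp [KMK_S]
    · simp [hP]
  refine ⟨h0 _, ?_⟩
  rw [h0, h0, ← Finset.sum_add_distrib, Finset.card_eq_sum_ones, Finset.sum_mul]
  refine Finset.sum_congr rfl fun r _ => ?_
  rw [one_mul, ← (hX i).card r]
  simp only [Nat.card_eq_fintype_card, Fintype.card_subtype]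
  rw [← Finset.filter_filter, ← Finset.filter_filter]
  exact Finset.card_filter_add_card_filter_not _

theorem KMK_Bal {n : Fin k → ℕ} (hX : ∀ i, (X i).OK (n i)) (Y : ∀ i, KT (d i))
    (hY : ∀ i, (Y i).OK (n i)) (hh : ∀ i r, (Y i).hn r = (X i).hn r)
    (S : Finset (Σ j, (K j →+* ℂ))) :
    (KMK_G ζ E hΦ e y X).Bal S ↔ (KMK_G ζ E hΦ e y Y).Bal S := by
  have h1 : ∀ i, Nat.card {u : (X i).I // (⟨.inl i, E i ((X i).bl u)⟩ : Σ j, (K j →+* ℂ)) ∈ S ∧
      (X i).hol u} = Nat.card {u : (Y i).I //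
        (⟨.inl i, E i ((Y i).bl u)⟩ : Σ j, (K j →+* ℂ)) ∈ S ∧ (Y i).hol u} := fun i => by
    rw [(KMK_cnt E X hX S i).1, (KMK_cnt E Y hY S i).1]
    exact Finset.sum_congr rfl fun r _ => (hh i r).symm
  have h2 : ∀ i, Nat.card {u : (X i).I // (⟨.inl i, E i ((X i).bl u)⟩ : Σ j, (K j →+* ℂ)) ∈ S ∧
      ¬ (X i).hol u} = Nat.card {u : (Y i).I //
        (⟨.inl i, E i ((Y i).bl u)⟩ : Σ j, (K j →+* ℂ)) ∈ S ∧ ¬ (Y i).hol u} := fun i => by
    have a1 := (KMK_cnt E X hX S i).2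
    have a2 := (KMK_cnt E Y hY S i).2
    have a3 := h1 i
    omega
  unfold GT.Bal
  rw [KMK_card, KMK_card, KMK_card, KMK_card]
  change (∑ i, Nat.card {u : (X i).I // (⟨.inl i, E i ((X i).bl u)⟩ : Σ j, (K j →+* ℂ)) ∈ S ∧
      (X i).hol u}) + _ = (∑ i, Nat.card {u : (X i).I //
      (⟨.inl i, E i ((X i).bl u)⟩ : Σ j, (K j →+* ℂ)) ∈ S ∧ ¬ (X i).hol u}) + _ ↔
    (∑ i, Nat.card {u : (Y i).I // (⟨.inl i, E i ((Y i).bl u)⟩ : Σ j, (K j →+* ℂ)) ∈ S ∧
      (Y i).hol u}) + _ = (∑ i, Nat.card {u : (Y i).I //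
      (⟨.inl i, E i ((Y i).bl u)⟩ : Σ j, (K j →+* ℂ)) ∈ S ∧ ¬ (Y i).hol u}) + _
  rw [Finset.sum_congr rfl fun i _ => h1 i, Finset.sum_congr rfl fun i _ => h2 i]
  rfl

end G

/-- destructured form -/
theorem KMK_main (hKPI : KPI_stmt) {k r : ℕ} {d n : Fin k → ℕ}
    (hn : ∀ i, 0 < n i) (X Y : ∀ i, KT (d i)) (hX : ∀ i, (X i).OK (n i))
    (hY : ∀ i, (Y i).OK (n i)) (hh : ∀ i r, (Y i).hn r = (X i).hn r)
    (K : Fin k ⊕ Fin r → Type) [∀ j, Field (K j)] [∀ j, NumberField (K j)]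
    (ζ : ∀ i, K (.inl i)) (E : ∀ i, Un (d i) ≃ (K (.inl i) →+* ℂ))
    (hE : ∀ i r, E i r (ζ i) = zt (d i) ^ (r.1 : ℕ))
    (hζ : ∀ i, Submodule.span ℚ (Set.range fun a : Fin (d i) => ζ i ^ (a : ℕ)) = ⊤)
    {B : Type} [NormedAddCommGroup B] [NormedSpace ℂ B] [FiniteDimensional ℂ B]
    {LB : AddSubgroup B} (hLB : IsLattice LB)
    {Φ : ∀ j : Fin r, Set (K (.inr j) →+* ℂ)} (hΦ : ∀ j, IsCMType (Φ j))
    (e : B ≃ₗ[ℂ] (∀ j, Φ j → ℂ))
    (lat : ∀ w : B, (∃ n : ℕ, n ≠ 0 ∧ n • w ∈ LB) ↔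
      ∃ x : ∀ j : Fin r, K (.inr j), ∀ (j : Fin r) (φ : Φ j),
        e w j φ = (φ : K (.inr j) →+* ℂ) (x j)) :
  ∃ (J : Type) (_ : Fintype J) (K : J → Type) (_ : ∀ j, Field (K j)) (_ : ∀ j, NumberField (K j))
    (G : GT J K (VV X B)) (G' : GT J K (VV Y B)), G.OK (LV X LB) ∧ G'.OK (LV Y LB) ∧
    (∀ S : Finset (Σ j, (K j →+* ℂ)), ∃ (S' : ∀ i, Finset (Un (d i))) (mB : Multiset (WC B)),
      G.mono S = MV X B S' mB ∧ G'.mono S = MV Y B S' mB) ∧
    (∀ S : Finset (Σ j, (K j →+* ℂ)), G.Bal S ↔ G'.Bal S) ∧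
    (∀ i i' : G.I, i ≠ i' → G.bl i = G.bl i' → ∃ (i0 : Fin k) (r : Un (d i0)) (u u' : (X i0).I),
      (X i0).bl u = r ∧ (X i0).bl u' = r ∧ u ≠ u' ∧
      G.z i = (X i0).z u ∘ₗ (LinearMap.proj (R := ℝ) (φ := fun i => (X i).W) i0 ∘ₗ
        LinearMap.fst ℝ (∀ i, (X i).W) B) ∧
      G.z i' = (X i0).z u' ∘ₗ (LinearMap.proj (R := ℝ) (φ := fun i => (X i).W) i0 ∘ₗ
        LinearMap.fst ℝ (∀ i, (X i).W) B)) ∧
    (∀ i : G.I, (∃ (i0 : Fin k) (u : (X i0).I), G.z i = (X i0).z u ∘ₗ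
        (LinearMap.proj (R := ℝ) (φ := fun i => (X i).W) i0 ∘ₗ LinearMap.fst ℝ (∀ i, (X i).W) B)) ∨
      (∀ w : ∀ i, (X i).W, G.z i (w, 0) = 0)) := by
  obtain ⟨nB, y, hy, hys⟩ := KMK_y Φ e hLB lat
  refine ⟨Fin k ⊕ Fin r, inferInstance, K, inferInstance, inferInstance, KMK_G ζ E hΦ e y X,
    KMK_G ζ E hΦ e y Y, KMK_OK ζ E hΦ e y X hKPI hn hX hE hζ hLB hy hys,
    KMK_OK ζ E hΦ e y Y hKPI hn hY hE hζ hLB hy hys,
    fun S => ⟨KMK_S E S, KMK_mB hΦ e S, KMK_mono ζ E hΦ e y X S, KMK_mono ζ E hΦ e y Y S⟩,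
    fun S => KMK_Bal ζ E hΦ e y X hX Y hY hh S, ?_, ?_⟩
  · rintro (⟨i, u⟩ | x) (⟨i', u'⟩ | x') hne hbl
    · change (⟨.inl i, E i ((X i).bl u)⟩ : Σ j, (K j →+* ℂ)) = ⟨.inl i', E i' ((X i').bl u')⟩ at hbl
      have h1 := KMK_bl_inl hbl
      subst h1
      rw [Sigma.mk.injEq] at hbl
      have h2 := (E i).injective (eq_of_heq hbl.2)
      refine ⟨i, (X i).bl u, u, u', rfl, h2.symm, ?_, rfl, rfl⟩
      rintro rfl
      exact hne rfl
    · exact absurd (congrArg Sigma.fst hbl) Sum.inl_ne_inr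
    · exact absurd (congrArg Sigma.fst hbl) Sum.inr_ne_inl
    · change (⟨.inr x.1, x.2⟩ : Σ j, (K j →+* ℂ)) = ⟨.inr x'.1, x'.2⟩ at hbl
      obtain ⟨a, b⟩ := x
      obtain ⟨a', b'⟩ := x'
      rw [Sigma.mk.injEq] at hbl
      simp only at hbl
      have h3 : a = a' := Sum.inr.inj hbl.1
      subst h3
      exact absurd (by rw [eq_of_heq hbl.2]) hne
  · rintro (⟨i, u⟩ | x)
    · exact Or.inl ⟨i, u, rfl⟩
    · refine Or.inr fun w => ?_
      change KMK_z e hΦ x (0 : B) = 0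
      exact map_zero _

/-- the fields -/
def KMK_K {k r : ℕ} (d : Fin k → ℕ) (KB : Fin r → Type) : Fin k ⊕ Fin r → Type
  | .inl i => CyclotomicField (d i) ℚ
  | .inr j => KB j

instance KMK_field {k r : ℕ} (d : Fin k → ℕ) (KB : Fin r → Type) [∀ j, Field (KB j)] :
    ∀ j, Field (KMK_K d KB j)
  | .inl i => inferInstanceAs (Field (CyclotomicField (d i) ℚ))
  | .inr j => inferInstanceAs (Field (KB j))

instance KMK_nf {k r : ℕ} (d : Fin k → ℕ) (KB : Fin r → Type) [∀ j, Field (KB j)]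
    [∀ j, NumberField (KB j)] : ∀ j, NumberField (KMK_K d KB j)
  | .inl i => inferInstanceAs (NumberField (CyclotomicField (d i) ℚ))
  | .inr j => inferInstanceAs (NumberField (KB j))

theorem KMK (hKPI : KPI_stmt) : KMK_stmt := by
  intro k d n hd hn X Y hX hY hh B _ _ _ LB hLB C
  choose ζ E hE hζ using fun i => KMK_cyc (d i) (hd i)
  exact KMK_main (r := C.r) hKPI hn X Y hX hY hh (KMK_K d C.K) ζ E hE hζ hLB (Φ := C.Φ)
    C.type C.e C.lat

end

end Pool.Agent.SJ
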